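import Mathlib

/-!
MP_039f74_co, Q1: the proposed lower bound for the size of sets with small edge boundary in finite
abelian groups is false.
-/

namespace Pool.Agent.Results.MP_039f74_co.BoundFails

open Finset

/-- The size of the edge boundary of `A` with respect to `S`: the number of pairs
`(a, s) ∈ A × S` with `a + s ∉ A`. -/
def boundary {G : Type} [AddCommGroup G] [DecidableEq G] (S A : Finset G) : ℕ :=
  ((A ×ˢ S).filter fun p => p.1 + p.2 ∉ A).card

/-- The assertion of Q1. -/
def Q1 : Prop :=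
  ∀ (G : Type) [AddCommGroup G] [Fintype G] [DecidableEq G] (S A : Finset G) (γ : ℝ) (d : ℕ),
    AddSubgroup.closure (S : Set G) = ⊤ → 0 < γ → γ ≤ 1 → A.Nonempty →
    IsLeast {k : ℕ | ∃ s ∈ S, addOrderOf s = k} d →
    (boundary S A : ℝ) ≤ (1 - γ) * AddGroup.rank G * A.card →
      (4 : ℝ) ^ ((1 - 1 / (d : ℝ)) * γ * AddGroup.rank G) ≤ A.card

/-- The group. -/
abbrev Gr (d a b : ℕ) : Type := ZMod d × (Fin a → ZMod 2) × (Fin b → ZMod 2)

/-- The generating set. -/
def gens (d a b : ℕ) : Option (Fin a ⊕ Fin b) → Gr d a b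
  | none => (1, 0, 0)
  | some (Sum.inl i) => (1, Pi.single i 1, 0)
  | some (Sum.inr j) => (1, 0, Pi.single j 1)

theorem gens_fst (d a b : ℕ) (o : Option (Fin a ⊕ Fin b)) : (gens d a b o).1 = 1 := by
  rcases o with _ | _ | _ <;> rfl

theorem gens_inj (d a b : ℕ) : Function.Injective (gens d a b) := by
  have h1 : ∀ (n : ℕ) (i j : Fin n), (Pi.single i 1 : Fin n → ZMod 2) = Pi.single j 1 → i = j := by
    intro n i j h
    by_contra hne
    have := congrFun h i
    rw [Pi.single_eq_same, Pi.single_eq_of_ne hne] at this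
    exact absurd this (by decide)
  have h0 : ∀ (n : ℕ) (i : Fin n), (Pi.single i 1 : Fin n → ZMod 2) ≠ 0 := by
    intro n i h
    have := congrFun h i
    rw [Pi.single_eq_same, Pi.zero_apply] at this
    exact absurd this (by decide)
  intro o o' h
  rcases o with _ | i | i <;> rcases o' with _ | j | j <;>
    simp only [gens, Prod.mk.injEq, true_and, and_true] at h
  · rfl
  · exact absurd h.symm (h0 _ _)
  · exact absurd h.symm (h0 _ _)
  · exact absurd h (h0 _ _)
  · rw [h1 _ _ _ h]
  · exact absurd h.1 (h0 _ _)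
  · exact absurd h (h0 _ _)
  · exact absurd h.1.symm (h0 _ _)
  · rw [h1 _ _ _ h]

theorem two_nsmul_pi (n : ℕ) (x : Fin n → ZMod 2) : (2 : ℕ) • x = 0 := by
  funext i
  have : ∀ y : ZMod 2, (2 : ℕ) • y = 0 := by decide
  exact this _

theorem order_gens (d a b : ℕ) (hd : Even d) (o : Option (Fin a ⊕ Fin b)) :
    addOrderOf (gens d a b o) = d := by
  apply Nat.dvd_antisymm
  · rw [addOrderOf_dvd_iff_nsmul_eq_zero]
    obtain ⟨k, hk⟩ := hd
    ext1
    · rw [Prod.smul_fst, gens_fst]
      simp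
    · rw [Prod.smul_snd]
      have h2 : d • (gens d a b o).2 = k • (2 • (gens d a b o).2) := by
        rw [← mul_nsmul, hk]
        congr 1
        ring
      rw [h2]
      have h3 : (2 : ℕ) • (gens d a b o).2 = 0 := by
        ext1
        · exact two_nsmul_pi _ _
        · exact two_nsmul_pi _ _
      rw [h3, smul_zero]
      rfl
  · have h1 : addOrderOf (gens d a b o).1 ∣ addOrderOf (gens d a b o) :=
      addOrderOf_map_dvd (AddMonoidHom.fst (ZMod d) ((Fin a → ZMod 2) × (Fin b → ZMod 2)))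
        (gens d a b o)
    rwa [gens_fst, ZMod.addOrderOf_one] at h1

theorem closure_gens (d a b : ℕ) :
    AddSubgroup.closure (Set.range (gens d a b)) = ⊤ := by
  rw [eq_top_iff]
  rintro ⟨x, y, z⟩ -
  set K := AddSubgroup.closure (Set.range (gens d a b)) with hK
  have h0 : (1, 0, 0) ∈ K := AddSubgroup.subset_closure ⟨none, rfl⟩
  have hx : ∀ x : ZMod d, ((x, 0, 0) : Gr d a b) ∈ K := by
    intro x
    obtain ⟨n, rfl⟩ := ZMod.intCast_surjective x
    have := K.zsmul_mem h0 n
    have e : n • ((1, 0, 0) : Gr d a b) = ((n : ZMod d), 0, 0) := by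
      ext <;> simp
    rwa [e] at this
  have hy : ∀ i, ((0, Pi.single i 1, 0) : Gr d a b) ∈ K := by
    intro i
    have h1 : ((1, Pi.single i 1, 0) : Gr d a b) ∈ K :=
      AddSubgroup.subset_closure ⟨some (Sum.inl i), rfl⟩
    have := K.sub_mem h1 h0
    simpa using this
  have hz : ∀ i, ((0, 0, Pi.single i 1) : Gr d a b) ∈ K := by
    intro i
    have h1 : ((1, 0, Pi.single i 1) : Gr d a b) ∈ K :=
      AddSubgroup.subset_closure ⟨some (Sum.inr i), rfl⟩
    have := K.sub_mem h1 h0
    simpa using this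
  have hv : ∀ v : ZMod 2, v.val • (1 : ZMod 2) = v := by decide
  have hy' : ((0, y, 0) : Gr d a b) ∈ K := by
    have e : ((0, y, 0) : Gr d a b) = ∑ i, (y i).val • ((0, Pi.single i 1, 0) : Gr d a b) := by
      ext1
      · rw [Prod.fst_sum]; simp
      · ext1
        · rw [Prod.snd_sum, Prod.fst_sum]
          funext j
          rw [Finset.sum_apply, Finset.sum_eq_single j]
          · change y j = ((y j).val • (Pi.single j 1 : Fin a → ZMod 2)) j
            rw [Pi.smul_apply, Pi.single_eq_same]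
            exact (hv _).symm
          · intro i _ hij
            simp [Pi.single_eq_of_ne (Ne.symm hij)]
          · simp
        · rw [Prod.snd_sum, Prod.snd_sum]; simp
    rw [e]
    exact K.sum_mem fun i _ => K.nsmul_mem (hy i) _
  have hz' : ((0, 0, z) : Gr d a b) ∈ K := by
    have e : ((0, 0, z) : Gr d a b) = ∑ i, (z i).val • ((0, 0, Pi.single i 1) : Gr d a b) := by
      ext1
      · rw [Prod.fst_sum]; simp
      · ext1
        · rw [Prod.snd_sum, Prod.fst_sum]; simp
        · rw [Prod.snd_sum, Prod.snd_sum]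
          funext j
          rw [Finset.sum_apply, Finset.sum_eq_single j]
          · change z j = ((z j).val • (Pi.single j 1 : Fin b → ZMod 2)) j
            rw [Pi.smul_apply, Pi.single_eq_same]
            exact (hv _).symm
          · intro i _ hij
            simp [Pi.single_eq_of_ne (Ne.symm hij)]
          · simp
    rw [e]
    exact K.sum_mem fun i _ => K.nsmul_mem (hz i) _
  have := K.add_mem (K.add_mem (hx x) hy') hz'
  simpa using this

/-- The reduction of the group modulo two. -/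
def red (d a b : ℕ) (hd : 2 ∣ d) : Gr d a b →+ (Option (Fin a ⊕ Fin b) → ZMod 2) where
  toFun x o := match o with
    | none => ZMod.castHom hd (ZMod 2) x.1
    | some (Sum.inl i) => x.2.1 i
    | some (Sum.inr j) => x.2.2 j
  map_zero' := by
    funext o
    rcases o with _ | i | j
    · exact map_zero _
    · rfl
    · rfl
  map_add' x y := by
    funext o
    rcases o with _ | i | j
    · exact map_add _ _ _
    · rfl
    · rfl

theorem red_surj (d a b : ℕ) (hd : 2 ∣ d) : Function.Surjective (red d a b hd) := by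
  intro f
  obtain ⟨x, hx⟩ := ZMod.castHom_surjective hd (f none)
  refine ⟨(x, fun i => f (some (Sum.inl i)), fun j => f (some (Sum.inr j))), ?_⟩
  funext o
  rcases o with _ | i | j
  · exact hx
  · rfl
  · rfl

theorem rank_ge (d a b : ℕ) [NeZero d] (hd : 2 ∣ d) : 1 + a + b ≤ AddGroup.rank (Gr d a b) := by
  obtain ⟨T, hT, hcl⟩ := AddGroup.rank_spec (Gr d a b)
  rw [← hT]
  classical
  set V := Option (Fin a ⊕ Fin b) → ZMod 2
  have h1 : Submodule.span (ZMod 2) ((T.image (red d a b hd) : Finset V) : Set V) = ⊤ := by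
    rw [eq_top_iff]
    rintro v -
    obtain ⟨x, rfl⟩ := red_surj d a b hd v
    have hx : x ∈ AddSubgroup.closure (T : Set (Gr d a b)) := by rw [hcl]; trivial
    induction hx using AddSubgroup.closure_induction with
    | mem x hx =>
      apply Submodule.subset_span
      rw [Finset.coe_image]
      exact ⟨x, hx, rfl⟩
    | zero => rw [map_zero]; exact Submodule.zero_mem _
    | add x y _ _ hx hy => rw [map_add]; exact Submodule.add_mem _ hx hy
    | neg x _ hx => rw [map_neg]; exact Submodule.neg_mem _ hx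
  have h2 := finrank_span_finset_le_card (R := ZMod 2) (T.image (red d a b hd))
  rw [Set.finrank, h1, finrank_top, Module.finrank_fintype_fun_eq_card] at h2
  have h3 : (T.image (red d a b hd)).card ≤ T.card := Finset.card_image_le
  have h4 : Fintype.card (Option (Fin a ⊕ Fin b)) = 1 + a + b := by
    simp; omega
  omega

/-- The generating set as a finite set. -/
def genSet (d a b : ℕ) [NeZero d] : Finset (Gr d a b) := univ.image (gens d a b)

theorem card_genSet (d a b : ℕ) [NeZero d] : (genSet d a b).card = 1 + a + b := by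
  rw [genSet, Finset.card_image_of_injective _ (gens_inj d a b), Finset.card_univ]
  simp; omega

theorem closure_genSet (d a b : ℕ) [NeZero d] :
    AddSubgroup.closure (genSet d a b : Set (Gr d a b)) = ⊤ := by
  rw [genSet, Finset.coe_image, Finset.coe_univ, Set.image_univ]
  exact closure_gens d a b

theorem rank_eq (d a b : ℕ) [NeZero d] (hd : 2 ∣ d) : AddGroup.rank (Gr d a b) = 1 + a + b := by
  apply le_antisymm _ (rank_ge d a b hd)
  rw [← card_genSet d a b]
  exact AddGroup.rank_le (closure_genSet d a b)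

/-- The small set. -/
def smallSet (d a b : ℕ) [NeZero d] : Finset (Gr d a b) := univ ×ˢ (univ ×ˢ {0})

theorem mem_smallSet (d a b : ℕ) [NeZero d] (x : Gr d a b) :
    x ∈ smallSet d a b ↔ x.2.2 = 0 := by
  simp only [smallSet, Finset.mem_product, Finset.mem_univ, Finset.mem_singleton, true_and]

theorem card_smallSet (d a b : ℕ) [NeZero d] : (smallSet d a b).card = d * 2 ^ a := by
  rw [smallSet, Finset.card_product, Finset.card_product, Finset.card_univ, Finset.card_univ,
    ZMod.card, Fintype.card_fun, ZMod.card, Fintype.card_fin, Finset.card_singleton, mul_one]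

theorem boundary_smallSet (d a b : ℕ) [NeZero d] :
    boundary (genSet d a b) (smallSet d a b) ≤ b * (smallSet d a b).card := by
  have h : ((smallSet d a b ×ˢ genSet d a b).filter fun p => p.1 + p.2 ∉ smallSet d a b) ⊆
      smallSet d a b ×ˢ (univ.image fun j : Fin b => gens d a b (some (Sum.inr j))) := by
    rintro ⟨x, s⟩ hxs
    rw [Finset.mem_filter, Finset.mem_product] at hxs
    obtain ⟨⟨hx, hs⟩, hns⟩ := hxs
    rw [Finset.mem_product]
    refine ⟨hx, ?_⟩
    simp only [genSet, Finset.mem_image, Finset.mem_univ, true_and] at hs ⊢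
    obtain ⟨o, rfl⟩ := hs
    rw [mem_smallSet] at hx hns
    rcases o with _ | i | j
    · exact absurd (by simpa [gens] using hx) hns
    · exact absurd (by simpa [gens] using hx) hns
    · exact ⟨j, rfl⟩
  unfold boundary
  refine (Finset.card_le_card h).trans ?_
  rw [Finset.card_product, mul_comm]
  apply Nat.mul_le_mul_right
  refine Finset.card_image_le.trans ?_
  simp

/-- The bound of Q1 fails; for every even order `d ≥ 4` no base larger than two is possible. -/
theorem result :
    ¬ Q1 ∧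
    ∀ d : ℕ, Even d → 4 ≤ d → ∀ c : ℝ, 2 < c → ∃ m₀ : ℕ, ∀ m ≥ m₀, ∀ n ≥ m,
      ∃ (G : Type) (_ : AddCommGroup G) (_ : Fintype G) (_ : DecidableEq G) (S A : Finset G),
        AddSubgroup.closure (S : Set G) = ⊤ ∧ AddGroup.rank G = n ∧ S.card = n ∧
        (∀ s ∈ S, addOrderOf s = d) ∧ A.Nonempty ∧ 0 < (m : ℝ) / n ∧ (m : ℝ) / n ≤ 1 ∧
        (boundary S A : ℝ) ≤ (1 - (m : ℝ) / n) * AddGroup.rank G * A.card ∧
        (A.card : ℝ) < c ^ ((m : ℝ) / n * AddGroup.rank G) := by
  have main : ∀ d : ℕ, Even d → 4 ≤ d → ∀ c : ℝ, 2 < c → ∃ m₀ : ℕ, ∀ m ≥ m₀, ∀ n ≥ m,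
      ∃ (G : Type) (_ : AddCommGroup G) (_ : Fintype G) (_ : DecidableEq G) (S A : Finset G),
        AddSubgroup.closure (S : Set G) = ⊤ ∧ AddGroup.rank G = n ∧ S.card = n ∧
        (∀ s ∈ S, addOrderOf s = d) ∧ A.Nonempty ∧ 0 < (m : ℝ) / n ∧ (m : ℝ) / n ≤ 1 ∧
        (boundary S A : ℝ) ≤ (1 - (m : ℝ) / n) * AddGroup.rank G * A.card ∧
        (A.card : ℝ) < c ^ ((m : ℝ) / n * AddGroup.rank G) := by
    intro d hd hd4 c hc
    have hc1 : 1 < c / 2 := by linarith
    have ht := (tendsto_pow_atTop_atTop_of_one_lt hc1).eventually_gt_atTop ((d : ℝ) / 2)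
    obtain ⟨m₀, hm₀⟩ := Filter.eventually_atTop.1 ht
    refine ⟨max m₀ 1, fun m hm n hn => ?_⟩
    have hm1 : 1 ≤ m := le_trans (le_max_right _ _) hm
    have hm2 := hm₀ m (le_trans (le_max_left _ _) hm)
    have : NeZero d := ⟨by omega⟩
    obtain ⟨a, rfl⟩ : ∃ a, m = 1 + a := ⟨m - 1, by omega⟩
    obtain ⟨b, rfl⟩ : ∃ b, n = 1 + a + b := ⟨n - (1 + a), by omega⟩
    have hr := rank_eq d a b hd.two_dvd
    have hn0 : (0 : ℝ) < ((1 + a + b : ℕ) : ℝ) := by positivity
    refine ⟨Gr d a b, inferInstance, inferInstance, inferInstance, genSet d a b, smallSet d a b,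
      closure_genSet d a b, hr, card_genSet d a b, ?_, ?_, ?_, ?_, ?_, ?_⟩
    · intro s hs
      simp only [genSet, Finset.mem_image, Finset.mem_univ, true_and] at hs
      obtain ⟨o, rfl⟩ := hs
      exact order_gens d a b hd o
    · exact ⟨0, (mem_smallSet d a b 0).2 rfl⟩
    · positivity
    · rw [div_le_one hn0]
      exact_mod_cast hn
    · rw [hr]
      have h1 : (1 - ((1 + a : ℕ) : ℝ) / ((1 + a + b : ℕ) : ℝ)) * ((1 + a + b : ℕ) : ℝ) = b := by
        field_simp
        push_cast
        ring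
      rw [h1]
      exact_mod_cast boundary_smallSet d a b
    · rw [hr, div_mul_cancel₀ _ hn0.ne', Real.rpow_natCast, card_smallSet]
      push_cast
      rw [div_pow, div_lt_div_iff₀ (by norm_num) (by positivity)] at hm2
      have : (2 : ℝ) ^ (1 + a) = 2 ^ a * 2 := by rw [add_comm, pow_succ]
      rw [this] at hm2
      nlinarith
  refine ⟨?_, main⟩
  intro hQ
  have hc : (2 : ℝ) < (4 : ℝ) ^ (1 - 1 / ((4 : ℕ) : ℝ)) := by
    have h1 : (2 : ℝ) = (4 : ℝ) ^ (1 / 2 : ℝ) := by
      rw [show (4 : ℝ) = 2 ^ (2 : ℝ) by norm_num, ← Real.rpow_mul (by norm_num)]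
      norm_num
    have h2 : (4 : ℝ) ^ (1 / 2 : ℝ) < (4 : ℝ) ^ (1 - 1 / ((4 : ℕ) : ℝ)) := by
      apply Real.rpow_lt_rpow_of_exponent_lt
      · norm_num
      · norm_num
    linarith
  obtain ⟨m₀, hm₀⟩ := main 4 (by decide) le_rfl _ hc
  obtain ⟨G, i1, i2, i3, S, A, hS, hr, hcard, ho, hA, hg0, hg1, hb, hlt⟩ :=
    hm₀ (m₀ + 1) (by omega) (m₀ + 1) le_rfl
  have hSne : S.Nonempty := by
    rw [← Finset.card_pos, hcard]
    omega
  have hleast : IsLeast {k : ℕ | ∃ s ∈ S, addOrderOf s = k} 4 := by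
    constructor
    · obtain ⟨s, hs⟩ := hSne
      exact ⟨s, hs, ho s hs⟩
    · rintro k ⟨s, hs, rfl⟩
      rw [ho s hs]
  have := hQ G S A (((m₀ + 1 : ℕ) : ℝ) / ((m₀ + 1 : ℕ) : ℝ)) 4 hS hg0 hg1 hA hleast hb
  rw [mul_assoc, Real.rpow_mul (by norm_num)] at this
  linarith

end Pool.Agent.Results.MP_039f74_co.BoundFails
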